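import Mathlib

namespace Pool.Agent.H.MP_3ca1b2_co

/-- a permutation of the first k colours 0,...,k-1 acting on all colours -/
def act {k : ℕ} (p : Equiv.Perm (Fin k)) (x : ℕ) : ℕ := if h : x < k then (p ⟨x, h⟩).val else x

/-- an S-signature: labels in S on arcs, inverse labels on opposite arcs -/
def IsSig {V : Type} {k : ℕ} (S : Set (Equiv.Perm (Fin k))) (G : SimpleGraph V)
    (σ : V → V → Equiv.Perm (Fin k)) : Prop :=
  ∀ v w, G.Adj v w → σ v w ∈ S ∧ σ w v = (σ v w)⁻¹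

/-- a j-colouring exists (colours 0,...,j-1) -/
def Col {V : Type} {k : ℕ} (G : SimpleGraph V) (σ : V → V → Equiv.Perm (Fin k)) (j : ℕ) : Prop :=
  ∃ c : V → ℕ, (∀ v, c v < j) ∧ ∀ v w, G.Adj v w → act (σ v w) (c v) ≠ c w

/-- the S-chromatic spectrum: the least positive j with a j-colouring, over all signatures -/
def Spec {V : Type} {k : ℕ} (S : Set (Equiv.Perm (Fin k))) (G : SimpleGraph V) : Set ℕ :=
  {x | ∃ σ, IsSig S G σ ∧ IsLeast {j | 0 < j ∧ Col G σ j} x}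

/-- nine permutations of 0,1,2,3 in one-line form -/
def S9 : Set (Equiv.Perm (Fin 4)) := {p | [p 0, p 1, p 2, p 3] ∈
  [[0, 2, 3, 1], [0, 3, 1, 2], [1, 0, 2, 3], [1, 2, 3, 0], [1, 3, 0, 2], [2, 0, 3, 1], [2, 1, 3, 0], [3, 0, 1, 2], [3, 1, 0, 2]]}

end Pool.Agent.H.MP_3ca1b2_co
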