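import Pool.Agent.H.MP_3ca1b2_co.C0
import Pool.Agent.H.MP_3ca1b2_co.C1
import Pool.Agent.H.MP_3ca1b2_co.C2

namespace Pool.Agent.H.MP_3ca1b2_co

def LL : List ℕ := [10885054743014532217568769, 9751686787125817366281729, 10802422552936350281104897, 10800208943647505134910977, 10802261161940103832010241, 10802256838484461556334081, 10802260837856852521778689, 10802260855519750907756033, 10802260855554248756166145, 10802260855554316134776321, 10802260855554316266375169, 1225869716672025646006795777, 1225874346894860139651661313, 1225874355940375175597391361, 1225874355939249275690548737, 1225874355952690049425866241, 1225874355952724547274276353, 1225874355952724614718946817, 1225874355952724614656032257, 1225874355952724614714359809, 1225874355952724614714236929, 1228245057879609033241918977, 1228245066923013006862319105, 1228245066940680028416900609, 1228245066940677829393645057, 1228245066940704080904846849, 1228245066940704148299185665, 1228245066940704148290797057, 1228245066940704148390938625, 1228249697217905094545112577, 1228249697235567992931089921, 1228249697235602498832563713, 1228249697235602494537596417, 1228249697235602545810079233,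 1228249697235602545941708801, 1228249697235602545941692417, 1228249706279147544814550529, 1228249706296810443200527873, 1228249706296844941048937985, 1228249706296845008427548161, 1228249706296845008559147009]

theorem hLL {t : ℕ → ℕ} (h : Hyp t) : ∀ x ∈ LL, ¬ Inv t x := by
  simp only [LL, List.forall_mem_cons]
  exact ⟨c0 h, c1 h, c2 h, c3 h, c4 h, c5 h, c6 h, c7 h, c8 h, c9 h, c10 h, c11 h, c12 h, c13 h, c14 h, c15 h, c16 h, c17 h, c18 h, c19 h, c20 h, c21 h, c22 h, c23 h, c24 h, c25 h, c26 h, c27 h, c28 h, c29 h, c30 h, c31 h, c32 h, c33 h, c34 h, c35 h, c36 h, c37 h, c38 h, c39 h, c40 h, by simp⟩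

theorem top {t : ℕ → ℕ} (h : Hyp t) : t 0 ≠ 0 := fun h0 =>
  chk_spec h LL (hLL h) 400 (2 ^ 90 - 1) 1 0x1fefefefefefefefefefefefef0fefefefefefefefeecfefefefefefefefefefee0fefefefefefefefefefefe50f2
    (Nat.ne_of_beq_eq_false (by decide +kernel))
    (fun e he => by rw [Nat.testBit_two_pow_sub_one]; have := h.lt e; simp; omega)
    ⟨0, by omega, by rw [h0]; rfl⟩

end Pool.Agent.H.MP_3ca1b2_co
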